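import Pool.Agent.Helper15.DAF.Stmts

/-! Row DGLUE of project DAF (helper53). -/

set_option autoImplicit false

open AlgebraicGeometry CategoryTheory TopologicalSpace Opposite

namespace Pool.Agent.Helper15.DAF

namespace S53

theorem mulOp_mul {K : Type} [Field K] [Algebra ℂ K] (a b : K) :
    mulOp (a * b) = mulOp a * mulOp b := by
  ext x
  simp [mulOp, mul_assoc]

theorem mulOp_add {K : Type} [Field K] [Algebra ℂ K] (a b : K) :
    mulOp (a + b) = mulOp a + mulOp b := by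
  ext x
  simp [mulOp, add_mul]

theorem mulOp_zero {K : Type} [Field K] [Algebra ℂ K] : mulOp (0 : K) = 0 := by
  ext x
  simp [mulOp]

theorem mulOp_one {K : Type} [Field K] [Algebra ℂ K] : mulOp (1 : K) = 1 := by
  ext x
  simp [mulOp]

theorem mulOp_mem {X : Scheme.{0}} [IsIntegral X] (s : X ⟶ Spec (CommRingCat.of ℂ)) (V : Aff X)
    (g : Γ(X, V.U)) : mulOp (ev s V g) ∈ Dop (O s V) :=
  Algebra.subset_adjoin (Or.inl ⟨ev s V g, ⟨g, rfl⟩, rfl⟩)

end S53

open S53 in
theorem st_DGLUE (hORE : ST_ORE) (hDM : ST_DMONO) (hSL : ST_SLOC) (hSB : ST_SBASIC)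
    (hSF : ST_SFG) : ST_DGLUE := by
  intro X _ s _ Q hQ
  unfold globalD
  rw [Algebra.mem_iInf]
  intro V
  have key : ∀ g ∈ Ideal.span {g : Γ(X, V.U) | mulOp (ev s V g) * Q ∈ Dop (O s V)},
      mulOp (ev s V g) * Q ∈ Dop (O s V) := by
    intro g hg
    induction hg using Submodule.span_induction with
    | mem x hx => exact hx
    | zero => rw [map_zero, mulOp_zero, zero_mul]; exact Subalgebra.zero_mem _
    | add x y _ _ hx hy =>
      rw [map_add, mulOp_add, add_mul]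
      exact Subalgebra.add_mem _ hx hy
    | smul a x _ hx =>
      rw [smul_eq_mul, map_mul, mulOp_mul, mul_assoc]
      exact Subalgebra.mul_mem _ (mulOp_mem s V a) hx
  have hspan : Ideal.span {g : Γ(X, V.U) | mulOp (ev s V g) * Q ∈ Dop (O s V)} = ⊤ := by
    rw [← V.aff.self_le_iSup_basicOpen_iff]
    intro x hx
    obtain ⟨W, hxW, hQW⟩ := hQ x
    obtain ⟨f, Z, hZ, hxZ, hZW⟩ := hSB X V W.U x hx hxW
    have hQZ : Q ∈ Dop (O s Z) := (hDM X s W Z hZW).2 hQW
    obtain ⟨N, hN⟩ := hORE _ _ _ _ (hSL X s V Z f hZ) (hSF X s V) Q hQZ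
    have hN1 : mulOp (ev s V (f ^ (N + 1))) * Q ∈ Dop (O s V) := by
      rw [pow_succ', map_mul, mulOp_mul, mul_assoc, map_pow]
      exact Subalgebra.mul_mem _ (mulOp_mem s V f) hN
    rw [Opens.mem_iSup]
    refine ⟨⟨f ^ (N + 1), hN1⟩, ?_⟩
    change x ∈ X.basicOpen (f ^ (N + 1))
    rw [Scheme.basicOpen_pow _ f (Nat.succ_pos N), ← hZ]
    exact hxZ
  have h1 := key 1 (by rw [hspan]; trivial)
  rwa [map_one, mulOp_one, one_mul] at h1

end Pool.Agent.Helper15.DAF
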